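import Pool.Agent.Work.MP_dd5692_pr.Final98
import Pool.Agent.Work.MP_dd5692_pr.W16

/-!
# MP_dd5692_pr : in the plane the detection threshold of Brownian mobile nodes is strictly larger
than the critical intensity for percolation of the vacant set.

All the objects of the statement are defined in `Pool/Agent/Work/MP_dd5692_pr/Defs98.lean`.
-/

open MeasureTheory MPdd5692
open scoped NNReal

namespace Pool.Agent.Results.MP_dd5692_pr.PlaneStrict

/-- `d = 2`: for every `r > 0`, `λ_crit < λ_det`. -/
theorem result (r : ℝ) (hr : 0 < r) (W : Measure Traj) (hW : IsWiener W)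
    (Ω : ℝ≥0 → Type) [∀ l, MeasurableSpace (Ω l)] (P : ∀ l, Measure (Ω l))
    (N : ∀ l, Ω l → Set Traj) (hN : ∀ l, 0 < l → IsNodeProcess W (P l) l (N l)) :
    lamCrit r P N < lamDet r P N :=
  statement_of_core fin_CORE r hr W hW Ω _ P N hN

end Pool.Agent.Results.MP_dd5692_pr.PlaneStrict
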